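import Pool.Agent.Helper95.RC.CosetHom
import Pool.Agent.Helper51.RD.Fc
import Pool.Agent.Helper70.RC.Traces

/-!
# RC-20: use of the comparison hypothesis
-/

open scoped ENNReal NNReal Topology CStarAlgebra ComplexOrder
open Filter

noncomputable section

namespace Pool.Agent.Helper61.RC

section abs
variable {M N : Type*} [CStarAlgebra M] [PartialOrder M] [StarOrderedRing M]
  [CStarAlgebra N] [PartialOrder N] [StarOrderedRing N]

omit [PartialOrder M] [StarOrderedRing M] [PartialOrder N] [StarOrderedRing N] in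
lemma map_fc_of_starHom (φ : M →⋆ₐ[ℂ] N) (f : ℝ → ℝ) (hf : Continuous f) (a : M)
    (ha : IsSelfAdjoint a) : φ (fc f a) = fc f (φ a) := by
  unfold fc
  refine StarAlgHomClass.map_cfc (S := ℂ) φ f a hf.continuousOn ?_ ha (ha.map φ)
  fun_prop

omit [PartialOrder N] [StarOrderedRing N] in
lemma dRho_starHom (φ : M →⋆ₐ[ℂ] N) (σ : N →ₗ[ℂ] ℂ) (τ : M →ₗ[ℂ] ℂ) (c : ℝ)
    (h : ∀ x, σ (φ x) = (c : ℂ) * τ x) (hτ : ∀ a, 0 ≤ τ (star a * a)) {a : M} (ha : 0 ≤ a) :
    dRho σ (φ a) = c * dRho τ a := by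
  have hlim := (dRho_tendsto τ hτ ha).const_mul c
  unfold dRho at *
  refine (Tendsto.congr ?_ hlim).limUnder_eq
  intro m
  rw [← map_fc_of_starHom φ _ ?_ a (IsSelfAdjoint.of_nonneg ha), h, Complex.re_ofReal_mul]
  exact Continuous.rpow_const continuous_id fun _ => Or.inr (by positivity)

lemma starHom_nonneg (φ : M →⋆ₐ[ℂ] N) {a : M} (ha : 0 ≤ a) : 0 ≤ φ a := by
  rw [CStarAlgebra.nonneg_iff_eq_star_mul_self] at ha ⊢
  obtain ⟨x, rfl⟩ := ha
  exact ⟨φ x, by rw [map_mul, map_star]⟩

end abs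

section lift
variable {X : Type*} [MetricSpace X] [CompactSpace X]

lemma coset_sum_mul (n : ℕ) (v w : Fin n → Fin n → Op X) :
    (∑ i, ∑ r, cosetW X n i * v i r * star (cosetW X n r)) *
      (∑ r, ∑ j, cosetW X n r * w r j * star (cosetW X n j))
      = ∑ i, ∑ j, cosetW X n i * (∑ r, v i r * w r j) * star (cosetW X n j) := by
  rw [Finset.sum_mul]
  refine Finset.sum_congr rfl fun i _ => ?_
  have key : ∀ r, cosetW X n i * v i r * star (cosetW X n r) *
      (∑ r, ∑ j, cosetW X n r * w r j * star (cosetW X n j))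
      = ∑ j, cosetW X n i * (v i r * w r j) * star (cosetW X n j) := by
    intro r
    rw [Finset.mul_sum, Finset.sum_eq_single r]
    · rw [Finset.mul_sum]
      refine Finset.sum_congr rfl fun j _ => ?_
      calc cosetW X n i * v i r * star (cosetW X n r) *
            (cosetW X n r * w r j * star (cosetW X n j))
          = cosetW X n i * v i r * (star (cosetW X n r) * cosetW X n r) * w r j
              * star (cosetW X n j) := by simp only [mul_assoc]
        _ = _ := by rw [star_cosetW_mul, if_pos rfl, mul_one]; simp only [mul_assoc]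
    · intro s _ hs
      rw [Finset.mul_sum]
      refine Finset.sum_eq_zero fun j _ => ?_
      calc cosetW X n i * v i r * star (cosetW X n r) *
            (cosetW X n s * w s j * star (cosetW X n j))
          = cosetW X n i * v i r * (star (cosetW X n r) * cosetW X n s) * w s j
              * star (cosetW X n j) := by simp only [mul_assoc]
        _ = _ := by rw [star_cosetW_mul, if_neg (Ne.symm hs)]; simp
    · intro h
      exact absurd (Finset.mem_univ r) h
  rw [Finset.sum_mul, Finset.sum_congr rfl fun r _ => key r, Finset.sum_comm]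
  refine Finset.sum_congr rfl fun j _ => ?_
  rw [Finset.mul_sum, Finset.sum_mul]

omit [MetricSpace X] [CompactSpace X] in
lemma sum_prodFin (n k : ℕ) (f : Fin (k * n) → Op X) :
    ∑ p, f p = ∑ μ : Fin k, ∑ r : Fin n, f (finProdFinEquiv (μ, r)) := by
  rw [← finProdFinEquiv.sum_comp, Fintype.sum_prod_type]

/-- `w ↦ (∑_{i,j} W_i w_{(κ,i),(l,j)} W_j^*)_{κ,l}`. -/
def coHom (X : Type*) [MetricSpace X] [CompactSpace X] (n k : ℕ) :
    Mat (k * n) (Op X) →⋆ₙₐ[ℂ] Mat k (Op X) where
  toFun w := CStarMatrix.ofMatrix (Matrix.of fun κ l => ∑ i : Fin n, ∑ j : Fin n,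
    cosetW X n i * w (finProdFinEquiv (κ, i)) (finProdFinEquiv (l, j)) * star (cosetW X n j))
  map_smul' c w := by
    refine CStarMatrix.ext fun κ l => ?_
    simp [Finset.smul_sum]
  map_zero' := by
    refine CStarMatrix.ext fun κ l => ?_
    simp [CStarMatrix.zero_apply]
  map_add' v w := by
    refine CStarMatrix.ext fun κ l => ?_
    simp [mul_add, add_mul, Finset.sum_add_distrib]
  map_mul' v w := by
    refine CStarMatrix.ext fun κ l => ?_
    simp only [CStarMatrix.ofMatrix_apply, Matrix.of_apply, CStarMatrix.mul_apply]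
    refine Eq.trans ?_ (Finset.sum_congr rfl fun μ _ => (coset_sum_mul n
      (fun i r => v (finProdFinEquiv (κ, i)) (finProdFinEquiv (μ, r)))
      (fun r j => w (finProdFinEquiv (μ, r)) (finProdFinEquiv (l, j)))).symm)
    simp only [sum_prodFin]
    symm
    rw [Finset.sum_comm]
    refine Finset.sum_congr rfl fun i _ => ?_
    rw [Finset.sum_comm]
    refine Finset.sum_congr rfl fun j _ => ?_
    simp only [Finset.sum_mul, Finset.mul_sum]
  map_star' w := by
    refine CStarMatrix.ext fun κ l => ?_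
    simp only [CStarMatrix.ofMatrix_apply, Matrix.of_apply, CStarMatrix.star_apply, star_sum,
      star_mul, star_star, mul_assoc]
    rw [Finset.sum_comm]

lemma coHom_apply (n k : ℕ) (w : Mat (k * n) (Op X)) (κ l : Fin k) :
    coHom X n k w κ l = ∑ i : Fin n, ∑ j : Fin n,
    cosetW X n i * w (finProdFinEquiv (κ, i)) (finProdFinEquiv (l, j)) * star (cosetW X n j) :=
  rfl

lemma norm_coHom_le (n k : ℕ) (w : Mat (k * n) (Op X)) : ‖coHom X n k w‖ ≤ ‖w‖ :=
  NonUnitalStarAlgHom.norm_apply_le (coHom X n k) w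

lemma coHom_inc (h : X ≃ₜ X) (n k : ℕ) [NeZero n] (a : Mat k (Cross h))
    (b : Mat (k * n) (Cross (h ^ n)))
    (hb : ∀ (κ l : Fin k) (i j : Fin n),
      val (h ^ n) (b (finProdFinEquiv (κ, i)) (finProdFinEquiv (l, j)))
          = star (cosetW X n i) * val h (a κ l) * cosetW X n j) :
    coHom X n k (inc (h ^ n) b) = inc h a := by
  refine CStarMatrix.ext fun κ l => ?_
  rw [coHom_apply, inc_apply]
  simp only [inc_apply, hb]
  calc ∑ i : Fin n, ∑ j : Fin n, cosetW X n i *
        (star (cosetW X n i) * val h (a κ l) * cosetW X n j) * star (cosetW X n j)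
      = (∑ i : Fin n, cosetW X n i * star (cosetW X n i)) * val h (a κ l) *
        (∑ j : Fin n, cosetW X n j * star (cosetW X n j)) := by
        rw [Finset.sum_mul, Finset.sum_mul]
        refine Finset.sum_congr rfl fun i _ => ?_
        rw [Finset.mul_sum]
        refine Finset.sum_congr rfl fun j _ => ?_
        simp only [mul_assoc]
    _ = val h (a κ l) := by rw [sum_cosetW_mul_star]; simp

lemma trace_mat_of_pull (h : X ≃ₜ X) (n k : ℕ) [NeZero n] (σ : TracialState (Cross (h ^ n)))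
    (τ : TracialState (Cross h))
    (hτ : ∀ (a : Cross h) (c : Fin n → Cross (h ^ n)),
      (∀ i, val (h ^ n) (c i) = star (cosetW X n i) * val h a * cosetW X n i) →
      τ.toLin a = (1 / (n : ℂ)) * ∑ i, σ.toLin (c i))
    (Φ : Mat k (Cross h) →⋆ₐ[ℂ] Mat (k * n) (Cross (h ^ n)))
    (hΦ : ∀ (a : Mat k (Cross h)) (κ l : Fin k) (i j : Fin n),
        val (h ^ n) (Φ a (finProdFinEquiv (κ, i)) (finProdFinEquiv (l, j)))
          = star (cosetW X n i) * val h (a κ l) * cosetW X n j) (a : Mat k (Cross h)) :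
    σ.mat (Φ a) = ((n : ℝ) : ℂ) * τ.mat a := by
  have hn : (n : ℂ) ≠ 0 := by exact_mod_cast NeZero.ne n
  change ∑ p, σ.toLin (Φ a p p) = ((n : ℝ) : ℂ) * ∑ κ, τ.toLin (a κ κ)
  rw [← finProdFinEquiv.sum_comp, Fintype.sum_prod_type, Finset.mul_sum]
  refine Finset.sum_congr rfl fun κ _ => ?_
  rw [hτ (a κ κ) (fun i => Φ a (finProdFinEquiv (κ, i)) (finProdFinEquiv (κ, i)))
    (fun i => hΦ a κ κ i i)]
  push_cast
  field_simp

theorem comparison_lift (h : X ≃ₜ X) (n : ℕ) [NeZero n] (R s : ℝ) (hRs : R ≤ n * s)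
    (hcomp : ComparesAt (Cross (h ^ n)) R) {k : ℕ} (a b : Mat k (Cross h)) (ha : 0 ≤ a)
    (hb : 0 ≤ b) (hab : ∀ τ : TracialState (Cross h), dTr τ a + s < dTr τ b) (ε : ℝ)
    (hε : 0 < ε) : ∃ α : ZMod n → Mat k (Cross h),
      ‖(∑ i, dg k (projOp X n i) * inc h (α i)) * inc h b
        * star (∑ i, dg k (projOp X n i) * inc h (α i)) - inc h a‖ < ε := by
  obtain ⟨Φ, hΦ⟩ := exists_cosetHom h n k
  have hn : (0 : ℝ) < n := by exact_mod_cast Nat.pos_of_ne_zero (NeZero.ne n)
  have hC : CuntzLE (Φ a) (Φ b) := by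
    refine hcomp _ _ _ (starHom_nonneg Φ ha) (starHom_nonneg Φ hb) ?_
    intro σ
    obtain ⟨τ, hτ⟩ := exists_trace_pull h n σ
    have hmat := trace_mat_of_pull h n k σ τ hτ Φ hΦ
    have h1 : dTr σ (Φ a) = n * dTr τ a :=
      dRho_starHom Φ σ.mat τ.mat n hmat τ.mat_pos ha
    have h2 : dTr σ (Φ b) = n * dTr τ b :=
      dRho_starHom Φ σ.mat τ.mat n hmat τ.mat_pos hb
    rw [h1, h2]
    nlinarith [hab τ]
  obtain ⟨v, hv⟩ := hC ε hε
  set V : Mat k (Op X) := coHom X n k (inc (h ^ n) v) with hV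
  have hVlt : ‖V * inc h b * star V - inc h a‖ < ε := by
    have e1 : V * inc h b * star V - inc h a
        = coHom X n k (inc (h ^ n) (v * Φ b * star v - Φ a)) := by
      rw [← incHom_apply (h ^ n) (v * Φ b * star v - Φ a), map_sub, map_mul, map_mul, map_star]
      rw [map_sub, map_mul, map_mul, map_star]
      simp only [incHom_apply]
      rw [coHom_inc h n k a (Φ a) (hΦ a), coHom_inc h n k b (Φ b) (hΦ b)]
    rw [e1]
    exact (norm_coHom_le n k _).trans_lt ((norm_inc (h ^ n) _).trans_lt hv)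
  -- perturbation of `V`
  let e : (Fin k → Fin k → Op X) → Mat k (Op X) := fun x => CStarMatrix.ofMatrix (Matrix.of x)
  have he : Continuous e := continuous_id
  have hF : Continuous fun x => ‖e x * inc h b * star (e x) - inc h a‖ := by fun_prop
  have hFV : ‖e (fun κ l => V κ l) * inc h b * star (e (fun κ l => V κ l)) - inc h a‖ < ε := hVlt
  have hev := hF.continuousAt.eventually_lt (continuousAt_const (x := fun κ l => V κ l) (y := ε)) hFV
  rw [Metric.eventually_nhds_iff] at hev
  obtain ⟨η, hη, hev⟩ := hev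
  have hpos : 0 < η / (n * n + 1) := by positivity
  choose T hT using fun (κ l : Fin k) (i j : Fin n) =>
    coset_lift h n (v (finProdFinEquiv (κ, i)) (finProdFinEquiv (l, j))) i j _ hpos
  -- `Fin n ≃ ZMod n`
  obtain ⟨E, hE⟩ : ∃ E : Fin n ≃ ZMod n, ∀ i, E i = ((i : ℕ) : ZMod n) := by
    refine ⟨Equiv.ofBijective (fun i : Fin n => ((i : ℕ) : ZMod n)) ?_, fun i => rfl⟩
    rw [Fintype.bijective_iff_injective_and_card]
    refine ⟨?_, by simp [ZMod.card]⟩
    intro i j hij
    have h1 := congrArg ZMod.val hij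
    simp only [ZMod.val_natCast] at h1
    rw [Nat.mod_eq_of_lt i.2, Nat.mod_eq_of_lt j.2] at h1
    exact Fin.ext h1
  let α : ZMod n → Mat k (Cross h) := fun z =>
    CStarMatrix.ofMatrix (Matrix.of fun κ l => ∑ j : Fin n, T κ l (E.symm z) j)
  refine ⟨α, ?_⟩
  have hsum : (∑ z, dg k (projOp X n z) * inc h (α z))
      = e (fun κ l => ∑ i : Fin n, ∑ j : Fin n,
          projOp X n ((i : ℕ) : ZMod n) * val h (T κ l i j)) := by
    refine CStarMatrix.ext fun κ l => ?_
    have hsa : ∀ (s : Finset (ZMod n)) (f : ZMod n → Mat k (Op X)),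
        (∑ z ∈ s, f z) κ l = ∑ z ∈ s, f z κ l := by
      intro s f
      classical
      induction s using Finset.induction_on with
      | empty => simp [CStarMatrix.zero_apply]
      | insert a s ha ih => rw [Finset.sum_insert ha, Finset.sum_insert ha, CStarMatrix.add_apply, ih]
    rw [hsa, ← E.sum_comp]
    change _ = ∑ i : Fin n, ∑ j : Fin n, projOp X n ((i : ℕ) : ZMod n) * val h (T κ l i j)
    refine Finset.sum_congr rfl fun i _ => ?_
    rw [CStarMatrix.mul_apply, Finset.sum_eq_single κ]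
    · have hEs : E.symm ((i : ℕ) : ZMod n) = i := by rw [← hE, Equiv.symm_apply_apply]
      simp only [dg, α, CStarMatrix.ofMatrix_apply, Matrix.diagonal_apply_eq, inc_apply,
        Matrix.of_apply, map_sum, Finset.mul_sum, hE, hEs]
    · intro μ _ hμ
      simp only [dg, CStarMatrix.ofMatrix_apply]
      rw [Matrix.diagonal_apply_ne _ (Ne.symm hμ), zero_mul]
    · intro hκ
      exact absurd (Finset.mem_univ κ) hκ
  rw [hsum]
  refine hev ?_
  rw [dist_pi_lt_iff hη]
  intro κ
  rw [dist_pi_lt_iff hη]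
  intro l
  rw [dist_eq_norm, norm_sub_rev, hV, coHom_apply, ← Finset.sum_sub_distrib]
  simp only [← Finset.sum_sub_distrib, inc_apply]
  refine (norm_sum_le _ _).trans_lt ?_
  calc ∑ i : Fin n, ‖∑ j : Fin n, (cosetW X n i * val (h ^ n)
          (v (finProdFinEquiv (κ, i)) (finProdFinEquiv (l, j))) * star (cosetW X n j)
          - projOp X n ((i : ℕ) : ZMod n) * val h (T κ l i j))‖
      ≤ ∑ _i : Fin n, ∑ _j : Fin n, η / (n * n + 1) := by
        refine Finset.sum_le_sum fun i _ => (norm_sum_le _ _).trans ?_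
        exact Finset.sum_le_sum fun j _ => (hT κ l i j).le
    _ = (n * n) * (η / (n * n + 1)) := by
        simp [mul_assoc]
    _ < η := by
        rw [mul_div_assoc', div_lt_iff₀ (by positivity)]
        nlinarith

theorem nonempty_trace_of_comparesAt (h : X ≃ₜ X) [Nonempty X] (n : ℕ) [NeZero n] (R : ℝ)
    (hcomp : ComparesAt (Cross (h ^ n)) R) : Nonempty (TracialState (Cross h)) := by
  by_contra hne
  rw [not_nonempty_iff] at hne
  have hC : CuntzLE (1 : Mat 1 (Cross (h ^ n))) 0 := by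
    refine hcomp _ _ _ zero_le_one le_rfl ?_
    intro σ
    obtain ⟨τ, -⟩ := exists_trace_pull h n σ
    exact (hne.false τ).elim
  obtain ⟨v, hv⟩ := hC 1 one_pos
  have hnt : Nontrivial (Cross (h ^ n)) := by
    refine ⟨⟨0, 1, ?_⟩⟩
    intro h01
    obtain ⟨x⟩ := ‹Nonempty X›
    classical
    have h1 := congrArg (val (h ^ n)) h01
    rw [map_zero, map_one] at h1
    have h2 := congrArg (fun T : Op X => T (lp.single 2 ((0 : ℤ), x) 1) ((0 : ℤ), x)) h1
    simp at h2
  rw [mul_zero, zero_mul, zero_sub, norm_neg, CStarRing.norm_one] at hv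
  exact lt_irrefl _ hv

end lift

end Pool.Agent.Helper61.RC
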