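import Mathlib
import Pool.Agent.Helper63.RC.Defs

/-!
# RC-18: conjugacy classes and order of `SL(2,p)`
-/

set_option autoImplicit false

namespace Pool.Agent.Helper63.RC

open Matrix Module

section SL2

variable {p : ℕ} [Fact p.Prime]

/-- representatives of the square classes -/
theorem rc18_exists_eps (p : ℕ) [Fact p.Prime] :
    ∃ ε : ZMod p, ε ≠ 0 ∧ ∀ u : ZMod p, u ≠ 0 → ∃ c : ZMod p, c ≠ 0 ∧ (u * c ^ 2 = 1 ∨ u * c ^ 2 = ε) := by
  by_cases h : ∃ e : ZMod p, e ≠ 0 ∧ ¬ IsSquare e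
  · obtain ⟨e, he, hne⟩ := h
    refine ⟨e, he, fun u hu => ?_⟩
    by_cases hs : IsSquare u
    · obtain ⟨r, hr⟩ := hs
      have hr0 : r ≠ 0 := by
        rintro rfl
        exact hu (by rw [hr, mul_zero])
      refine ⟨r⁻¹, inv_ne_zero hr0, Or.inl ?_⟩
      rw [hr]
      field_simp
    · have h1 : quadraticChar (ZMod p) u = -1 := quadraticChar_neg_one_iff_not_isSquare.2 hs
      have h2 : quadraticChar (ZMod p) e = -1 := quadraticChar_neg_one_iff_not_isSquare.2 hne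
      have h3 : quadraticChar (ZMod p) (u * e) = 1 := by
        rw [map_mul, h1, h2]
        norm_num
      obtain ⟨r, hr⟩ := (quadraticChar_one_iff_isSquare (mul_ne_zero hu he)).1 h3
      have hr0 : r ≠ 0 := by
        rintro rfl
        exact mul_ne_zero hu he (by rw [hr, mul_zero])
      refine ⟨e / r, div_ne_zero he hr0, Or.inr ?_⟩
      have : u = r * r / e := by
        field_simp
        rw [hr, pow_two]
      rw [this]
      field_simp
  · push Not at h
    refine ⟨1, one_ne_zero, fun u hu => ?_⟩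
    obtain ⟨r, hr⟩ := h u hu
    have hr0 : r ≠ 0 := by
      rintro rfl
      exact hu (by rw [hr, mul_zero])
    refine ⟨r⁻¹, inv_ne_zero hr0, Or.inl ?_⟩
    rw [hr]
    field_simp

/-- the representatives of the non scalar classes -/
noncomputable def rc18_M (t u : ZMod p) (hu : u ≠ 0) : Matrix.SpecialLinearGroup (Fin 2) (ZMod p) :=
  ⟨!![0, -u⁻¹; u, t], by
    rw [Matrix.det_fin_two_of]
    field_simp
    ring⟩

/-- a vector with `det (v, g v) = u` gives a conjugation with the representative -/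
theorem rc18_conj (g : Matrix.SpecialLinearGroup (Fin 2) (ZMod p)) (x y u : ZMod p) (hu : u ≠ 0)
    (h : g 1 0 * x ^ 2 + (g 1 1 - g 0 0) * (x * y) - g 0 1 * y ^ 2 = u) :
    IsConj (rc18_M (g 0 0 + g 1 1) u hu) g := by
  have hdet : g 0 0 * g 1 1 - g 0 1 * g 1 0 = 1 := by
    have := g.2
    rw [Matrix.det_fin_two] at this
    exact this
  have huu : u * u⁻¹ = 1 := mul_inv_cancel₀ hu
  let P : Matrix.SpecialLinearGroup (Fin 2) (ZMod p) :=
    ⟨!![x, u⁻¹ * (g 0 0 * x + g 0 1 * y); y, u⁻¹ * (g 1 0 * x + g 1 1 * y)], by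
      rw [Matrix.det_fin_two_of]
      linear_combination u⁻¹ * h + huu⟩
  rw [isConj_iff]
  refine ⟨P, ?_⟩
  rw [mul_inv_eq_iff_eq_mul]
  apply Subtype.ext
  rw [Matrix.SpecialLinearGroup.coe_mul, Matrix.SpecialLinearGroup.coe_mul]
  have hg : (g : Matrix (Fin 2) (Fin 2) (ZMod p)) = !![g 0 0, g 0 1; g 1 0, g 1 1] :=
    Matrix.eta_fin_two _
  rw [hg]
  show !![x, u⁻¹ * (g 0 0 * x + g 0 1 * y); y, u⁻¹ * (g 1 0 * x + g 1 1 * y)] *
    !![0, -u⁻¹; u, g 0 0 + g 1 1] = !![g 0 0, g 0 1; g 1 0, g 1 1] *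
    !![x, u⁻¹ * (g 0 0 * x + g 0 1 * y); y, u⁻¹ * (g 1 0 * x + g 1 1 * y)]
  rw [Matrix.mul_fin_two, Matrix.mul_fin_two]
  have e1 : x * 0 + u⁻¹ * (g 0 0 * x + g 0 1 * y) * u = g 0 0 * x + g 0 1 * y := by
    linear_combination (g 0 0 * x + g 0 1 * y) * huu
  have e2 : x * -u⁻¹ + u⁻¹ * (g 0 0 * x + g 0 1 * y) * (g 0 0 + g 1 1) =
      g 0 0 * (u⁻¹ * (g 0 0 * x + g 0 1 * y)) + g 0 1 * (u⁻¹ * (g 1 0 * x + g 1 1 * y)) := by
    linear_combination (u⁻¹ * x) * hdet
  have e3 : y * 0 + u⁻¹ * (g 1 0 * x + g 1 1 * y) * u = g 1 0 * x + g 1 1 * y := by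
    linear_combination (g 1 0 * x + g 1 1 * y) * huu
  have e4 : y * -u⁻¹ + u⁻¹ * (g 1 0 * x + g 1 1 * y) * (g 0 0 + g 1 1) =
      g 1 0 * (u⁻¹ * (g 0 0 * x + g 0 1 * y)) + g 1 1 * (u⁻¹ * (g 1 0 * x + g 1 1 * y)) := by
    linear_combination (u⁻¹ * y) * hdet
  rw [e1, e2, e3, e4]

/-- a non scalar element has a suitable vector -/
theorem rc18_exists_vec (g : Matrix.SpecialLinearGroup (Fin 2) (ZMod p))
    (hg : ¬ (g 0 1 = 0 ∧ g 1 0 = 0 ∧ g 0 0 = g 1 1)) :
    ∃ x y : ZMod p, g 1 0 * x ^ 2 + (g 1 1 - g 0 0) * (x * y) - g 0 1 * y ^ 2 ≠ 0 := by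
  by_contra hcon
  push Not at hcon
  have h1 := hcon 1 0
  have h2 := hcon 0 1
  have h3 := hcon 1 1
  refine hg ⟨?_, ?_, ?_⟩
  · linear_combination -h2
  · linear_combination h1
  · linear_combination h1 + h2 - h3

/-- the parametrisation of the classes -/
noncomputable def rc18_param (ε : ZMod p) (hε : ε ≠ 0) :
    (ZMod p × Bool) ⊕ Bool → ConjClasses (Matrix.SpecialLinearGroup (Fin 2) (ZMod p))
  | Sum.inl (t, true) => ConjClasses.mk (rc18_M t 1 one_ne_zero)
  | Sum.inl (t, false) => ConjClasses.mk (rc18_M t ε hε)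
  | Sum.inr true => ConjClasses.mk 1
  | Sum.inr false => ConjClasses.mk ⟨!![-1, 0; 0, -1], by
      rw [Matrix.det_fin_two_of]
      ring⟩

theorem rc18_param_surjective (ε : ZMod p) (hε : ε ≠ 0)
    (h : ∀ u : ZMod p, u ≠ 0 → ∃ c : ZMod p, c ≠ 0 ∧ (u * c ^ 2 = 1 ∨ u * c ^ 2 = ε)) :
    Function.Surjective (rc18_param ε hε) := by
  intro C
  obtain ⟨g, rfl⟩ := ConjClasses.mk_surjective C
  by_cases hg : g 0 1 = 0 ∧ g 1 0 = 0 ∧ g 0 0 = g 1 1
  · obtain ⟨h1, h2, h3⟩ := hg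
    have hdet : g 0 0 * g 1 1 - g 0 1 * g 1 0 = 1 := by
      have := g.2
      rw [Matrix.det_fin_two] at this
      exact this
    have h4 : g 1 1 = 1 ∨ g 1 1 = -1 := by
      rw [h1, h3] at hdet
      have : g 1 1 * g 1 1 = 1 := by linear_combination hdet
      exact mul_self_eq_one_iff.1 this
    have hg' : (g : Matrix (Fin 2) (Fin 2) (ZMod p)) = !![g 0 0, g 0 1; g 1 0, g 1 1] :=
      Matrix.eta_fin_two _
    rcases h4 with h4 | h4
    · refine ⟨Sum.inr true, ?_⟩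
      have : g = 1 := by
        apply Subtype.ext
        rw [hg', h1, h2, h3, h4, Matrix.SpecialLinearGroup.coe_one, Matrix.one_fin_two]
      rw [this]
      rfl
    · refine ⟨Sum.inr false, ?_⟩
      show ConjClasses.mk _ = ConjClasses.mk g
      congr 1
      apply Subtype.ext
      rw [hg', h1, h2, h3, h4]
  · obtain ⟨x, y, hxy⟩ := rc18_exists_vec g hg
    obtain ⟨c, hc, hc'⟩ := h _ hxy
    rcases hc' with hc' | hc'
    · refine ⟨Sum.inl (g 0 0 + g 1 1, true), ?_⟩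
      show ConjClasses.mk (rc18_M (g 0 0 + g 1 1) 1 one_ne_zero) = ConjClasses.mk g
      rw [ConjClasses.mk_eq_mk_iff_isConj]
      refine rc18_conj g (c * x) (c * y) 1 one_ne_zero ?_
      linear_combination hc'
    · refine ⟨Sum.inl (g 0 0 + g 1 1, false), ?_⟩
      show ConjClasses.mk (rc18_M (g 0 0 + g 1 1) ε hε) = ConjClasses.mk g
      rw [ConjClasses.mk_eq_mk_iff_isConj]
      refine rc18_conj g (c * x) (c * y) ε hε ?_
      linear_combination hc'

end SL2

theorem rc18_sl2_classes (p : ℕ) [Fact p.Prime] :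
    Nat.card (ConjClasses (Matrix.SpecialLinearGroup (Fin 2) (ZMod p))) ≤ 2 * p + 2 := by
  obtain ⟨ε, hε, h⟩ := rc18_exists_eps p
  have h1 := Nat.card_le_card_of_surjective _ (rc18_param_surjective ε hε h)
  have h2 : Nat.card ((ZMod p × Bool) ⊕ Bool) = 2 * p + 2 := by
    rw [Nat.card_eq_fintype_card, Fintype.card_sum, Fintype.card_prod, ZMod.card,
      Fintype.card_bool]
    ring
  omega

theorem rc18_sl2_card (p : ℕ) [Fact p.Prime] :
    Nat.card (Matrix.SpecialLinearGroup (Fin 2) (ZMod p)) = p * (p ^ 2 - 1) := by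
  have hp : 2 ≤ p := (Fact.out : p.Prime).two_le
  -- the kernel of the determinant
  let δ : GL (Fin 2) (ZMod p) →* (ZMod p)ˣ := Matrix.GeneralLinearGroup.det
  have hsurj : Function.Surjective δ := by
    intro u
    refine ⟨Matrix.GeneralLinearGroup.mkOfDetNeZero !![(u : ZMod p), 0; 0, 1] ?_, ?_⟩
    · rw [Matrix.det_fin_two_of]
      simp
    · apply Units.ext
      show Matrix.det !![(u : ZMod p), 0; 0, 1] = u
      rw [Matrix.det_fin_two_of]
      ring
  have h1 : Nat.card (GL (Fin 2) (ZMod p)) = Nat.card (ZMod p)ˣ * Nat.card δ.ker := by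
    rw [Subgroup.card_eq_card_quotient_mul_card_subgroup δ.ker,
      Nat.card_congr (QuotientGroup.quotientKerEquivOfSurjective δ hsurj).toEquiv]
  have h2 : Nat.card δ.ker = Nat.card (Matrix.SpecialLinearGroup (Fin 2) (ZMod p)) := by
    refine Nat.card_congr ?_
    refine ⟨fun g => ⟨g.1.1, ?_⟩, fun g => ⟨Matrix.SpecialLinearGroup.toGL g, ?_⟩, ?_, ?_⟩
    · have := g.2
      rw [MonoidHom.mem_ker] at this
      have h := congrArg Units.val this
      exact h
    · rw [MonoidHom.mem_ker]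
      apply Units.ext
      exact g.2
    · intro g
      apply Subtype.ext
      apply Units.ext
      rfl
    · intro g
      apply Subtype.ext
      rfl
  have h3 : Nat.card (GL (Fin 2) (ZMod p)) = (p ^ 2 - 1) * (p ^ 2 - p) := by
    rw [Matrix.card_GL_field, Fin.prod_univ_two, ZMod.card]
    simp
  have h4 : Nat.card (ZMod p)ˣ = p - 1 := by
    rw [Nat.card_eq_fintype_card, ZMod.card_units]
  rw [h2, h3, h4] at h1
  have h5 : (p ^ 2 - 1) * (p ^ 2 - p) = (p - 1) * (p * (p ^ 2 - 1)) := by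
    have : p ^ 2 - p = (p - 1) * p := by
      rw [Nat.sub_mul, one_mul, pow_two]
    rw [this]
    ring
  rw [h5] at h1
  exact (Nat.eq_of_mul_eq_mul_left (by omega) h1).symm

end Pool.Agent.Helper63.RC
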