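import Pool.Agent.Helper20.RC.Coset

/-!
# RC-18 and RC-19: the coset homomorphism and the induced traces
-/

open scoped ENNReal NNReal Topology CStarAlgebra ComplexOrder
open Filter

noncomputable section

namespace Pool.Agent.Helper61.RC

variable {X : Type*} [MetricSpace X] [CompactSpace X]

/-- `W_i^* T W_j` as an element of the crossed product by `h^n`. -/
def cosetEl (h : X ≃ₜ X) (n : ℕ) (T : Cross h) (i j : Fin n) : Cross (h ^ n) :=
  mk (h ^ n) (star (cosetW X n i) * val h T * cosetW X n j) (coset_mem h n T i j)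

@[simp] lemma val_cosetEl (h : X ≃ₜ X) (n : ℕ) (T : Cross h) (i j : Fin n) :
    val (h ^ n) (cosetEl h n T i j) = star (cosetW X n i) * val h T * cosetW X n j := rfl

lemma cosetEl_add (h : X ≃ₜ X) (n : ℕ) (S T : Cross h) (i j : Fin n) :
    cosetEl h n (S + T) i j = cosetEl h n S i j + cosetEl h n T i j := by
  apply val_injective (h ^ n)
  simp [mul_add, add_mul]

lemma cosetEl_smul (h : X ≃ₜ X) (n : ℕ) (c : ℂ) (T : Cross h) (i j : Fin n) :
    cosetEl h n (c • T) i j = c • cosetEl h n T i j := by
  apply val_injective (h ^ n)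
  simp

lemma cosetEl_star (h : X ≃ₜ X) (n : ℕ) (T : Cross h) (i j : Fin n) :
    cosetEl h n (star T) i j = star (cosetEl h n T j i) := by
  apply val_injective (h ^ n)
  rw [val_cosetEl, map_star, map_star, val_cosetEl, star_mul, star_mul, star_star, mul_assoc]

lemma cosetEl_one (h : X ≃ₜ X) (n : ℕ) (i j : Fin n) :
    cosetEl h n 1 i j = if i = j then 1 else 0 := by
  apply val_injective (h ^ n)
  rw [val_cosetEl, map_one, mul_one, star_cosetW_mul]
  split_ifs <;> simp

lemma cosetEl_mul (h : X ≃ₜ X) (n : ℕ) [NeZero n] (S T : Cross h) (i j : Fin n) :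
    cosetEl h n (S * T) i j = ∑ l, cosetEl h n S i l * cosetEl h n T l j := by
  apply val_injective (h ^ n)
  rw [map_sum]
  simp only [map_mul, val_cosetEl]
  calc star (cosetW X n i) * (val h S * val h T) * cosetW X n j
      = star (cosetW X n i) * val h S * (∑ l : Fin n, cosetW X n l * star (cosetW X n l))
          * val h T * cosetW X n j := by rw [sum_cosetW_mul_star, mul_one]; simp only [mul_assoc]
    _ = _ := by
        rw [Finset.mul_sum, Finset.sum_mul, Finset.sum_mul]
        refine Finset.sum_congr rfl fun l _ => ?_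
        simp only [mul_assoc]

-- RC-18 : the coset homomorphism
theorem exists_cosetHom (h : X ≃ₜ X) (n k : ℕ) [NeZero n] :
    ∃ Φ : Mat k (Cross h) →⋆ₐ[ℂ] Mat (k * n) (Cross (h ^ n)),
      ∀ (a : Mat k (Cross h)) (κ l : Fin k) (i j : Fin n),
        val (h ^ n) (Φ a (finProdFinEquiv (κ, i)) (finProdFinEquiv (l, j)))
          = star (cosetW X n i) * val h (a κ l) * cosetW X n j := by
  let φ : Mat k (Cross h) → Mat (k * n) (Cross (h ^ n)) := fun a =>
    CStarMatrix.ofMatrix (Matrix.of fun p q =>
      cosetEl h n (a (finProdFinEquiv.symm p).1 (finProdFinEquiv.symm q).1)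
        (finProdFinEquiv.symm p).2 (finProdFinEquiv.symm q).2)
  have hφ : ∀ (a : Mat k (Cross h)) (p q : Fin (k * n)), φ a p q
      = cosetEl h n (a (finProdFinEquiv.symm p).1 (finProdFinEquiv.symm q).1)
        (finProdFinEquiv.symm p).2 (finProdFinEquiv.symm q).2 := fun _ _ _ => rfl
  have h1 : φ 1 = 1 := by
    refine CStarMatrix.ext fun p q => ?_
    rw [hφ, CStarMatrix.one_apply, CStarMatrix.one_apply]
    by_cases hpq : p = q
    · subst hpq
      rw [if_pos rfl, if_pos rfl, cosetEl_one, if_pos rfl]
    · rw [if_neg hpq]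
      by_cases h1 : (finProdFinEquiv.symm p).1 = (finProdFinEquiv.symm q).1
      · rw [if_pos h1, cosetEl_one, if_neg]
        intro h2
        exact hpq (finProdFinEquiv.symm.injective (Prod.ext h1 h2))
      · rw [if_neg h1]
        apply val_injective (h ^ n)
        simp
  have hadd : ∀ a b, φ (a + b) = φ a + φ b := by
    intro a b
    refine CStarMatrix.ext fun p q => ?_
    rw [CStarMatrix.add_apply, hφ, hφ, hφ, CStarMatrix.add_apply, cosetEl_add]
  have hsmul : ∀ (c : ℂ) a, φ (c • a) = c • φ a := by
    intro c a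
    refine CStarMatrix.ext fun p q => ?_
    rw [CStarMatrix.smul_apply, hφ, hφ, CStarMatrix.smul_apply, cosetEl_smul]
  have hzero : φ 0 = 0 := by
    have := hsmul 0 0
    rwa [zero_smul, zero_smul] at this
  have hsum : ∀ (s : Finset (Fin k)) (f : Fin k → Cross h) (i j : Fin n),
      cosetEl h n (∑ μ ∈ s, f μ) i j = ∑ μ ∈ s, cosetEl h n (f μ) i j := by
    intro s f i j
    apply val_injective (h ^ n)
    simp only [val_cosetEl, map_sum, Finset.mul_sum, Finset.sum_mul]
  let Φ : Mat k (Cross h) →⋆ₐ[ℂ] Mat (k * n) (Cross (h ^ n)) :=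
    { toFun := φ
      map_one' := h1
      map_mul' := by
        intro a b
        refine CStarMatrix.ext fun p q => ?_
        rw [CStarMatrix.mul_apply, ← finProdFinEquiv.sum_comp, Fintype.sum_prod_type, hφ,
          CStarMatrix.mul_apply, hsum]
        refine Finset.sum_congr rfl fun μ _ => ?_
        rw [cosetEl_mul]
        refine Finset.sum_congr rfl fun r _ => ?_
        rw [hφ, hφ, Equiv.symm_apply_apply]
      map_zero' := hzero
      map_add' := hadd
      commutes' := by
        intro c
        rw [Algebra.algebraMap_eq_smul_one, Algebra.algebraMap_eq_smul_one, hsmul, h1]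
      map_star' := by
        intro a
        refine CStarMatrix.ext fun p q => ?_
        rw [CStarMatrix.star_apply, hφ, hφ, CStarMatrix.star_apply, cosetEl_star] }
  refine ⟨Φ, fun a κ l i j => ?_⟩
  change val (h ^ n) (φ a (finProdFinEquiv (κ, i)) (finProdFinEquiv (l, j))) = _
  rw [hφ]
  simp only [Equiv.symm_apply_apply, val_cosetEl]

-- RC-19 : traces
theorem exists_trace_pull (h : X ≃ₜ X) (n : ℕ) [NeZero n] (σ : TracialState (Cross (h ^ n))) :
    ∃ τ : TracialState (Cross h), ∀ (a : Cross h) (c : Fin n → Cross (h ^ n)),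
      (∀ i, val (h ^ n) (c i) = star (cosetW X n i) * val h a * cosetW X n i) →
      τ.toLin a = (1 / (n : ℂ)) * ∑ i, σ.toLin (c i) := by
  have hn : (n : ℂ) ≠ 0 := by exact_mod_cast NeZero.ne n
  let τ : TracialState (Cross h) :=
    { toLin :=
        { toFun := fun a => (1 / (n : ℂ)) * ∑ i, σ.toLin (cosetEl h n a i i)
          map_add' := by
            intro a b
            simp only [cosetEl_add, map_add, Finset.sum_add_distrib, mul_add]
          map_smul' := by
            intro c a
            simp only [cosetEl_smul, map_smul, smul_eq_mul, ← Finset.mul_sum, RingHom.id_apply]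
            ring }
      pos' := by
        intro a
        change 0 ≤ (1 / (n : ℂ)) * ∑ i, σ.toLin (cosetEl h n (star a * a) i i)
        have h0 : (0 : ℂ) ≤ 1 / (n : ℂ) := by
          have : (0 : ℝ) ≤ 1 / (n : ℝ) := by positivity
          have h2 : (1 / (n : ℂ)) = ((1 / (n : ℝ) : ℝ) : ℂ) := by push_cast; ring
          rw [h2]
          exact_mod_cast this
        refine mul_nonneg h0 (Finset.sum_nonneg fun i _ => ?_)
        rw [cosetEl_mul, map_sum]
        refine Finset.sum_nonneg fun l _ => ?_
        rw [cosetEl_star]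
        exact σ.pos' _
      one' := by
        change (1 / (n : ℂ)) * ∑ i, σ.toLin (cosetEl h n 1 i i) = 1
        simp only [cosetEl_one, if_true, σ.one']
        simp [hn]
      comm' := by
        intro a b
        change (1 / (n : ℂ)) * ∑ i, σ.toLin (cosetEl h n (a * b) i i)
          = (1 / (n : ℂ)) * ∑ i, σ.toLin (cosetEl h n (b * a) i i)
        congr 1
        simp only [cosetEl_mul, map_sum]
        rw [Finset.sum_comm]
        refine Finset.sum_congr rfl fun i _ => Finset.sum_congr rfl fun j _ => ?_
        exact σ.comm' _ _ }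
  refine ⟨τ, fun a c hc => ?_⟩
  change (1 / (n : ℂ)) * ∑ i, σ.toLin (cosetEl h n a i i) = _
  congr 1
  refine Finset.sum_congr rfl fun i _ => ?_
  congr 1
  apply val_injective (h ^ n)
  rw [hc, val_cosetEl]

end Pool.Agent.Helper61.RC
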